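import Pool.Agent.R598.TFTall

/-!
# A tree forcing `P` on `2^{<ω}` and a Borel set that is not `P`-measurable
-/

namespace Pool.Agent.Results.MP_9b1908_lc.BorelNotTreeMeasurable

open Pool.Agent.R598.TF

/-- **Theorem (ZFC).** There are a tree forcing `P` on `2^{<ω}` and a Borel subset of `2^ω`
which is not `P`-measurable. -/
theorem result : ∃ P : Set (Set (List Bool)), IsTreeForcing P ∧
    ∃ A : Set (ℕ → Bool), @MeasurableSet (ℕ → Bool) (borel (ℕ → Bool)) A ∧ ¬ PMeasurable P A :=
  main

end Pool.Agent.Results.MP_9b1908_lc.BorelNotTreeMeasurable
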